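import Pool.Agent.Lib.H9V.V4
import Pool.Agent.Lib.HUK.A8a

/-!
# H9V (helper9), V5: Vinogradov's lemma for polynomials of degree at most `d`, with exponent `16 (d + 1)^3`

`vinp`: real polynomials. `av_explicit`: the form used in Lib/HUK (functions `P : ℤ → ℤ` with `PF d c P`).
-/

open Finset Polynomial

namespace Pool.Agent.Lib.H9V

open Pool.Agent.Lib.H84V (nd nd_nonneg nd_sub_int nd_eq_abs nd_le_half nd_sub_le nd_le_int)

/-- Integral linear combinations. -/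
theorem nd_sum {ι : Type*} (s : Finset ι) (c : ι → ℤ) (y : ι → ℝ) (A e : ℝ) (hc : ∀ i ∈ s, |(c i : ℝ)| ≤ A)
    (hy : ∀ i ∈ s, nd (y i) ≤ e) : nd (∑ i ∈ s, c i * y i) ≤ s.card * (A * e) := by
  have h1 := nd_le_int (∑ i ∈ s, c i * y i) (∑ i ∈ s, c i * round (y i))
  refine h1.trans ?_
  push_cast
  rw [← Finset.sum_sub_distrib]
  refine (Finset.abs_sum_le_sum_abs _ _).trans ?_
  rw [← nsmul_eq_mul]
  refine Finset.sum_le_card_nsmul _ _ _ fun i hi => ?_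
  rw [← mul_sub, abs_mul]
  exact mul_le_mul (hc i hi) (hy i hi) (abs_nonneg _) ((abs_nonneg _).trans (hc i hi))

theorem pow_bound {B : ℝ} (hB : 2 ≤ B) {a b : ℕ} (h : a ≤ 2 ^ b) : (a : ℝ) ≤ B ^ b := by
  calc (a : ℝ) ≤ ((2 ^ b : ℕ) : ℝ) := by exact_mod_cast h
    _ = 2 ^ b := by push_cast; rfl
    _ ≤ B ^ b := pow_le_pow_left₀ (by norm_num) hB b

theorem e1 (d : ℕ) : d + 1 ≤ 2 ^ d := Nat.lt_two_pow_self
theorem e2 (d : ℕ) : 2 * (d + 1) ≤ 2 ^ (d + 1) := by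
  have := e1 d
  rw [pow_succ]
  omega
theorem e3 (d : ℕ) : 2 * d + 3 ≤ 2 ^ (d + 2) := by
  have := e1 d
  rw [pow_add]
  omega
theorem e4 (d : ℕ) : 7 * (d + 1) ≤ 2 ^ (d + 3) := by
  have := e1 d
  rw [pow_add]
  omega
theorem e5 (d : ℕ) : d.factorial ≤ 2 ^ (d * d) := by
  refine (Nat.factorial_le_pow d).trans ?_
  rw [pow_mul]
  exact Nat.pow_le_pow_left Nat.lt_two_pow_self.le d

set_option maxHeartbeats 4000000 in
/-- Vinogradov's lemma for real polynomials. -/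
theorem vinp (d : ℕ) (δ : ℝ) (hδ : 0 < δ) (hδ2 : δ ≤ 1 / 2) (L : ℕ) (hL : (1 / δ) ^ (16 * (d + 1) ^ 3) ≤ L) (p : ℝ[X])
    (hp : p.natDegree ≤ d) (ε : ℝ) (hε : 0 ≤ ε) (hεδ : ε ≤ δ ^ (16 * (d + 1) ^ 3)) (K : Finset ℕ) (hKL : K ⊆ range L)
    (hK : δ * L ≤ K.card) (hnear : ∀ k ∈ K, nd (p.eval (k : ℝ)) ≤ ε) :
    ∃ q : ℕ, 1 ≤ q ∧ (q : ℝ) ≤ (1 / δ) ^ (16 * (d + 1) ^ 3) ∧
      nd (q * p.coeff d) ≤ (1 / δ) ^ (16 * (d + 1) ^ 3) * ε / (L : ℝ) ^ d := by
  obtain ⟨B, hBd⟩ : ∃ B : ℝ, B = 1 / δ := ⟨_, rfl⟩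
  obtain ⟨CC, hCC⟩ : ∃ CC : ℕ, CC = 16 * (d + 1) ^ 3 := ⟨_, rfl⟩
  rw [← hBd, ← hCC] at hL ⊢
  rw [← hCC] at hεδ
  have hCexp : CC = 16 * d ^ 3 + 48 * d ^ 2 + 48 * d + 16 := by
    rw [hCC]
    ring
  have hd0 : (0 : ℝ) ≤ d := Nat.cast_nonneg d
  have hB2 : 2 ≤ B := by
    rw [hBd, le_div_iff₀ hδ]
    linarith
  have hB1 : 1 ≤ B := by linarith
  have hB0 : 0 < B := by linarith
  have hδB : δ = 1 / B := by
    rw [hBd, one_div_one_div]
  have hδB1 : δ * B = 1 := by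
    rw [hδB]
    field_simp
  have hmono : ∀ a b : ℕ, a ≤ b → B ^ a ≤ B ^ b := fun a b hab => pow_le_pow_right₀ hB1 hab
  have hL1r : (1 : ℝ) ≤ L := (one_le_pow₀ hB1).trans hL
  have hL0 : (0 : ℝ) < L := by linarith
  -- window
  obtain ⟨w, hwd⟩ : ∃ w : ℕ, w = ⌈2 * ((d : ℝ) + 1) * B⌉₊ := ⟨_, rfl⟩
  have hw1 : 2 * ((d : ℝ) + 1) * B ≤ w := by
    rw [hwd]
    exact Nat.le_ceil _
  have hw2 : (w : ℝ) ≤ 2 * ((d : ℝ) + 1) * B + 1 := by
    rw [hwd]
    exact (Nat.ceil_lt_add_one (by positivity)).le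
  have hwδ : 2 * ((d : ℝ) + 1) ≤ δ * w := by
    have h1 : δ * (2 * ((d : ℝ) + 1) * B) ≤ δ * w := mul_le_mul_of_nonneg_left hw1 hδ.le
    have h2 : δ * (2 * ((d : ℝ) + 1) * B) = 2 * ((d : ℝ) + 1) * (δ * B) := by ring
    rw [h2, hδB1, mul_one] at h1
    exact h1
  have hwB : (w : ℝ) ≤ B ^ (d + 3) := by
    have h1 := pow_bound hB2 (e3 d)
    have h2 : (w : ℝ) ≤ (2 * d + 3) * B := by nlinarith
    refine h2.trans ?_
    rw [show d + 3 = (d + 2) + 1 by ring, pow_succ]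
    refine mul_le_mul_of_nonneg_right ?_ hB0.le
    refine le_trans (le_of_eq ?_) h1
    push_cast
    ring
  have hw1r : (1 : ℝ) ≤ w := by nlinarith
  have hw1n : 1 ≤ w := by exact_mod_cast hw1r
  have hw0 : (0 : ℝ) < w := by linarith
  have hdw : d ≤ w := by
    have : (d : ℝ) ≤ w := by nlinarith
    exact_mod_cast this
  -- shapes
  have hL4 : 4 * (d : ℝ) ≤ δ * L := by
    have h1 : δ * B ^ CC ≤ δ * L := mul_le_mul_of_nonneg_left hL hδ.le
    have h2 : δ * B ^ CC = B ^ (CC - 1) := by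
      have h3 : B ^ CC = B * B ^ (CC - 1) := by
        rw [← pow_succ']
        congr 1
        omega
      rw [h3, ← mul_assoc, hδB1, one_mul]
    rw [h2] at h1
    refine le_trans ?_ h1
    have h4 : (4 * d : ℕ) ≤ 2 ^ (d + 2) := by
      have := e1 d
      rw [pow_add]
      omega
    have h5 := pow_bound hB2 h4
    push_cast at h5
    refine h5.trans (hmono _ _ ?_)
    have : 0 ≤ d ^ 3 := Nat.zero_le _
    omega
  obtain ⟨s, hs, hsw, hs0, K1, hK1L, hK1c, hK1⟩ := shapes d L w δ hwδ hw1n hL4 K hKL hK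
  obtain ⟨D, hD0, hDb, hlag⟩ := lagr d w s hs hsw hdw
  obtain ⟨δ1, hδ1d⟩ : ∃ δ1 : ℝ, δ1 = δ / (4 * (w : ℝ) ^ (d + 2)) := ⟨_, rfl⟩
  have hδ1 : 0 < δ1 := by
    rw [hδ1d]
    positivity
  have hK1c' : δ1 * L ≤ K1.card := by
    rw [hδ1d]
    refine le_trans (le_of_eq ?_) hK1c
    ring
  have hwd2 : (1 : ℝ) ≤ (w : ℝ) ^ (d + 2) := one_le_pow₀ hw1r
  have hδ11 : δ1 ≤ 1 := by
    rw [hδ1d, div_le_one (by positivity)]
    linarith
  obtain ⟨x1, hx1⟩ : ∃ x1 : ℕ, x1 = (d + 3) * (d + 2) + 3 := ⟨_, rfl⟩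
  have hδ1B : 1 / δ1 ≤ B ^ x1 := by
    have h1 : 1 / δ1 = 4 * (w : ℝ) ^ (d + 2) * B := by
      rw [hδ1d, hBd]
      field_simp
    rw [h1, hx1]
    have h2 : (w : ℝ) ^ (d + 2) ≤ B ^ ((d + 3) * (d + 2)) := by
      rw [pow_mul]
      exact pow_le_pow_left₀ hw0.le hwB _
    have h3 : (4 : ℝ) ≤ B ^ 2 := by nlinarith
    calc 4 * (w : ℝ) ^ (d + 2) * B ≤ B ^ 2 * B ^ ((d + 3) * (d + 2)) * B :=
          mul_le_mul_of_nonneg_right (mul_le_mul h3 h2 (by positivity) (by positivity)) hB0.le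
      _ = B ^ ((d + 3) * (d + 2) + 3) := by ring
  -- the polynomial `D p`
  obtain ⟨h, hh⟩ : ∃ h : ℝ[X], h = C (D : ℝ) * p := ⟨_, rfl⟩
  have hhd : h.natDegree ≤ d := by
    rw [hh]
    exact (Polynomial.natDegree_C_mul_le _ _).trans hp
  obtain ⟨ε1, hε1d⟩ : ∃ ε1 : ℝ, ε1 = ((d : ℝ) + 1) * ((w : ℝ) ^ (d * (d + 1)) * ε) := ⟨_, rfl⟩
  have hε1 : 0 ≤ ε1 := by
    rw [hε1d]
    positivity
  have hnear1 : ∀ x ∈ K1, ∀ y : ℕ, y ≤ d → nd (h.eval ((x : ℝ) + y)) ≤ ε1 := by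
    intro x hx y hy
    obtain ⟨c, hc1, hc2⟩ := hlag y hy
    rw [hh, Polynomial.eval_mul, Polynomial.eval_C, hc2 p hp (x : ℝ)]
    have h1 := nd_sum (Finset.univ : Finset (Fin (d + 1))) c (fun i => p.eval ((x : ℝ) + s i)) ((w : ℝ) ^ (d * (d + 1))) ε
      (fun i _ => hc1 i) (fun i _ => by
        have h2 := hnear _ (hK1 x hx i)
        push_cast at h2
        exact h2)
    rw [Finset.card_univ, Fintype.card_fin] at h1
    push_cast at h1
    rw [hε1d]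
    exact h1
  obtain ⟨ε2, hε2d⟩ : ∃ ε2 : ℝ, ε2 = 2 ^ d * ε1 := ⟨_, rfl⟩
  have hε2 : 0 ≤ ε2 := by
    rw [hε2d]
    positivity
  have hnear2 : ∀ x ∈ K1, ∀ j ≤ d, nd ((Dp^[j] h).eval (x : ℝ)) ≤ ε2 := by
    intro x hx j hj
    refine (nd_diff j h x ε1 fun i hi => hnear1 x hx i (hi.trans hj)).trans ?_
    rw [hε2d]
    exact mul_le_mul_of_nonneg_right (pow_le_pow_right₀ (by norm_num) hj) hε1
  obtain ⟨x3, hx3⟩ : ∃ x3 : ℕ, x3 = 2 * d + (d + 3) * (d * (d + 1)) := ⟨_, rfl⟩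
  have hε2B : ε2 ≤ B ^ x3 * ε := by
    rw [hε2d, hε1d, hx3]
    have h1 : (w : ℝ) ^ (d * (d + 1)) ≤ B ^ ((d + 3) * (d * (d + 1))) := by
      rw [pow_mul B]
      exact pow_le_pow_left₀ hw0.le hwB _
    have h2 : (2 : ℝ) ^ d ≤ B ^ d := pow_le_pow_left₀ (by norm_num) hB2 d
    have h3 : (d : ℝ) + 1 ≤ B ^ d := by
      have := pow_bound hB2 (e1 d)
      push_cast at this
      exact this
    calc (2 : ℝ) ^ d * (((d : ℝ) + 1) * ((w : ℝ) ^ (d * (d + 1)) * ε))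
        ≤ B ^ d * (B ^ d * (B ^ ((d + 3) * (d * (d + 1))) * ε)) := by
          refine mul_le_mul h2 (mul_le_mul h3 (mul_le_mul_of_nonneg_right h1 hε) (by positivity) (by positivity)) (by positivity)
            (by positivity)
      _ = B ^ (2 * d + (d + 3) * (d * (d + 1))) * ε := by ring
  -- constants of Lemma R
  obtain ⟨x2, hx2⟩ : ∃ x2 : ℕ, x2 = d + d * (d + 1 + x1) := ⟨_, rfl⟩
  have hd1B : (d : ℝ) + 1 ≤ B ^ d := by
    have := pow_bound hB2 (e1 d)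
    push_cast at this
    exact this
  have h2d1B : 2 * ((d : ℝ) + 1) ≤ B ^ (d + 1) := by
    have := pow_bound hB2 (e2 d)
    push_cast at this
    exact this
  have hRcB : Rc d δ1 ≤ B ^ x2 := by
    unfold Rc
    have h1 : 2 * ((d : ℝ) + 1) / δ1 ≤ B ^ (d + 1 + x1) := by
      rw [div_eq_mul_one_div, pow_add]
      exact mul_le_mul h2d1B hδ1B (by positivity) (by positivity)
    calc ((d : ℝ) + 1) * (2 * ((d : ℝ) + 1) / δ1) ^ d ≤ B ^ d * (B ^ (d + 1 + x1)) ^ d :=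
          mul_le_mul hd1B (pow_le_pow_left₀ (by positivity) h1 d) (by positivity) (by positivity)
      _ = B ^ x2 := by
        rw [hx2, ← pow_mul, ← pow_add]
        congr 1
        ring
  have hRc3B : Rc d (1 / 3) ≤ B ^ (d + (d + 3) * d) := by
    unfold Rc
    have h1 : 2 * ((d : ℝ) + 1) / (1 / 3) ≤ B ^ (d + 3) := by
      have h2 := pow_bound hB2 (e4 d)
      push_cast at h2
      have h3 : 2 * ((d : ℝ) + 1) / (1 / 3) = 6 * ((d : ℝ) + 1) := by ring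
      rw [h3]
      linarith
    calc ((d : ℝ) + 1) * (2 * ((d : ℝ) + 1) / (1 / 3)) ^ d ≤ B ^ d * (B ^ (d + 3)) ^ d :=
          mul_le_mul hd1B (pow_le_pow_left₀ (by positivity) h1 d) (by positivity) (by positivity)
      _ = B ^ (d + (d + 3) * d) := by rw [← pow_mul, ← pow_add]
  obtain ⟨ℓ0, hℓ0d⟩ : ∃ ℓ0 : ℕ, ℓ0 = ⌈6 * ((d : ℝ) + 1) * (1 / δ1)⌉₊ := ⟨_, rfl⟩
  have hℓ01 : 6 * ((d : ℝ) + 1) * (1 / δ1) ≤ ℓ0 := by
    rw [hℓ0d]
    exact Nat.le_ceil _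
  have hℓ02 : (ℓ0 : ℝ) ≤ 6 * ((d : ℝ) + 1) * (1 / δ1) + 1 := by
    rw [hℓ0d]
    exact (Nat.ceil_lt_add_one (by positivity)).le
  have hδ1i : 1 ≤ 1 / δ1 := by
    rw [le_div_iff₀ hδ1]
    linarith
  have hℓ0δ : 6 * ((d : ℝ) + 1) ≤ δ1 * ℓ0 := by
    have h1 : δ1 * (6 * ((d : ℝ) + 1) * (1 / δ1)) ≤ δ1 * ℓ0 := mul_le_mul_of_nonneg_left hℓ01 hδ1.le
    have h2 : δ1 * (6 * ((d : ℝ) + 1) * (1 / δ1)) = 6 * ((d : ℝ) + 1) := by field_simp
    rw [h2] at h1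
    exact h1
  have hℓ0B : (ℓ0 : ℝ) ≤ B ^ (d + 3 + x1) := by
    have h2 := pow_bound hB2 (e4 d)
    push_cast at h2
    have h3 : (ℓ0 : ℝ) ≤ 7 * ((d : ℝ) + 1) * (1 / δ1) := by nlinarith
    refine h3.trans ?_
    rw [pow_add]
    exact mul_le_mul h2 hδ1B (by positivity) (by positivity)
  have hℓ0L : ℓ0 < L := by
    have h1 : B ^ (d + 3 + x1) < B ^ CC := by
      refine pow_lt_pow_right₀ (by linarith) ?_
      rw [hx1, hCexp]
      have h2 : (d + 3) * (d + 2) = d ^ 2 + 5 * d + 6 := by ring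
      have : 0 ≤ d ^ 3 := Nat.zero_le _
      have : 0 ≤ d ^ 2 := Nat.zero_le _
      omega
    have h2 : (ℓ0 : ℝ) < L := lt_of_le_of_lt hℓ0B (lt_of_lt_of_le h1 hL)
    exact_mod_cast h2
  have hRc1 := Rc_ge_one d hδ1 hδ11
  obtain ⟨E, hEd⟩ : ∃ E : ℝ, E = Rc d δ1 * ε2 := ⟨_, rfl⟩
  have hE0 : 0 ≤ E := by
    rw [hEd]
    have := Rc_pos d hδ1
    positivity
  have hEB : E ≤ B ^ (x2 + x3) * ε := by
    rw [hEd, pow_add, mul_assoc]
    exact mul_le_mul hRcB hε2B hε2 (by positivity)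
  have hε2E : ε2 ≤ E := by
    rw [hEd]
    nlinarith
  have hℓ01' : (1 : ℝ) ≤ ℓ0 := by
    refine le_trans ?_ hℓ01
    have h1 : 1 * 1 ≤ 6 * ((d : ℝ) + 1) * (1 / δ1) := mul_le_mul (by linarith) hδ1i (by norm_num) (by positivity)
    linarith
  have hsmall : Rc d (1 / 3) * (Rc d δ1 * ε2 + ℓ0 * (Rc d δ1 * ε2) + ε2) ≤ 1 / 4 := by
    rw [← hEd]
    have h1 : E + ℓ0 * E + ε2 ≤ B ^ 2 * (B ^ (d + 3 + x1) * (B ^ (x2 + x3) * ε)) := by
      have h2 : E + ℓ0 * E + ε2 ≤ 4 * (ℓ0 * E) := by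
        have h21 : 1 * E ≤ ℓ0 * E := mul_le_mul_of_nonneg_right hℓ01' hE0
        have h22 : 0 ≤ ℓ0 * E := mul_nonneg (by linarith) hE0
        linarith
      refine h2.trans ?_
      have h3 : (4 : ℝ) ≤ B ^ 2 := by nlinarith
      exact mul_le_mul h3 (mul_le_mul hℓ0B hEB hE0 (by positivity)) (by positivity) (by positivity)
    have h4 : Rc d (1 / 3) * (E + ℓ0 * E + ε2) ≤ B ^ (d + (d + 3) * d) * (B ^ 2 * (B ^ (d + 3 + x1) * (B ^ (x2 + x3) * ε))) :=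
      mul_le_mul hRc3B h1 (by positivity) (by positivity)
    refine h4.trans ?_
    have h5 : B ^ (d + (d + 3) * d) * (B ^ 2 * (B ^ (d + 3 + x1) * (B ^ (x2 + x3) * ε))) =
        B ^ (d + (d + 3) * d + 2 + (d + 3 + x1) + (x2 + x3)) * ε := by ring
    rw [h5]
    have h6 : B ^ (d + (d + 3) * d + 2 + (d + 3 + x1) + (x2 + x3)) ≤ B ^ (CC - 2) := by
      refine hmono _ _ ?_
      have h7 : d + (d + 3) * d + 2 + (d + 3 + x1) + (x2 + x3) + 2 ≤ CC := by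
        rw [hx3, hx2, hx1, hCexp]
        have h8 : d + (d + 3) * d + 2 + (d + 3 + ((d + 3) * (d + 2) + 3)) + (d + d * (d + 1 + ((d + 3) * (d + 2) + 3)) +
          (2 * d + (d + 3) * (d * (d + 1)))) + 2 = 2 * d ^ 3 + 12 * d ^ 2 + 26 * d + 16 := by ring
        rw [h8]
        have : 0 ≤ d ^ 3 := Nat.zero_le _
        have : 0 ≤ d ^ 2 := Nat.zero_le _
        omega
      omega
    have h9 : B ^ (CC - 2) * ε ≤ B ^ (CC - 2) * δ ^ CC := mul_le_mul_of_nonneg_left hεδ (by positivity)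
    have h10 : B ^ (CC - 2) * δ ^ CC = δ ^ 2 := by
      have h11 : CC = (CC - 2) + 2 := by omega
      calc B ^ (CC - 2) * δ ^ CC = B ^ (CC - 2) * δ ^ ((CC - 2) + 2) := by rw [← h11]
        _ = (δ * B) ^ (CC - 2) * δ ^ 2 := by rw [pow_add, mul_pow]; ring
        _ = δ ^ 2 := by rw [hδB1, one_pow, one_mul]
    have h12 : δ ^ 2 ≤ 1 / 4 := by nlinarith
    calc B ^ (d + (d + 3) * d + 2 + (d + 3 + x1) + (x2 + x3)) * ε ≤ B ^ (CC - 2) * ε := mul_le_mul_of_nonneg_right h6 hε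
      _ ≤ 1 / 4 := h9.trans (h10.le.trans h12)
  -- Lemma R
  obtain ⟨a, ha⟩ := lemR d L ℓ0 δ1 ε2 hδ1 hδ11 hε2 K1 hℓ0δ hℓ0L hK1L hK1c' hsmall d le_rfl h hhd hnear2
  rw [← hEd] at ha
  -- the leading coefficient
  obtain ⟨N, hN⟩ : ∃ N : ℝ[X], N = ∑ j ∈ range (d + 1), C (a j : ℝ) * Bp j := ⟨_, rfl⟩
  rw [← hN] at ha
  have hNd : N.natDegree ≤ d := by
    rw [hN]
    refine Polynomial.natDegree_sum_le_of_forall_le _ _ fun j hj => ?_
    refine (Polynomial.natDegree_C_mul_le _ _).trans ((Bp_natDegree j).trans ?_)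
    rw [Finset.mem_range] at hj
    omega
  have hNc : N.coeff d = a d * (d.factorial : ℝ)⁻¹ := by
    rw [hN, Polynomial.finsetSum_coeff, Finset.sum_range_succ]
    have h1 : ∑ j ∈ range d, (C (a j : ℝ) * Bp j).coeff d = 0 := by
      refine Finset.sum_eq_zero fun j hj => ?_
      rw [Polynomial.coeff_C_mul, Bp_coeff_lt (Finset.mem_range.1 hj), mul_zero]
    rw [h1, zero_add, Polynomial.coeff_C_mul, Bp_coeff]
  have hLd : d + 1 ≤ L := by
    have h1 : ((d + 1 : ℕ) : ℝ) ≤ L := by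
      refine (pow_bound hB2 (e1 d)).trans ((hmono _ _ ?_).trans hL)
      rw [hCexp]
      have : 0 ≤ d ^ 3 := Nat.zero_le _
      have : 0 ≤ d ^ 2 := Nat.zero_le _
      omega
    exact_mod_cast h1
  have hlead := lead_le d L hLd (h - N) ((Polynomial.natDegree_sub_le _ _).trans (max_le hhd hNd)) E (fun k hk => by
    rw [Polynomial.eval_sub]
    exact ha k hk)
  rw [Polynomial.coeff_sub, hNc, hh, Polynomial.coeff_C_mul] at hlead
  have hfac : (0 : ℝ) < d.factorial := by exact_mod_cast Nat.factorial_pos d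
  refine ⟨D.natAbs * d.factorial, Nat.succ_le_of_lt (Nat.mul_pos (Int.natAbs_pos.2 hD0) (Nat.factorial_pos d)), ?_, ?_⟩
  · push_cast
    have h1 : ((D.natAbs : ℕ) : ℝ) = |(D : ℝ)| := by
      rw [Nat.cast_natAbs]
      push_cast
      rfl
    rw [h1]
    have h2 : (w : ℝ) ^ (d * (d + 1)) ≤ B ^ ((d + 3) * (d * (d + 1))) := by
      rw [pow_mul B]
      exact pow_le_pow_left₀ hw0.le hwB _
    calc |(D : ℝ)| * (d.factorial : ℝ) ≤ B ^ ((d + 3) * (d * (d + 1))) * B ^ (d * d) :=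
          mul_le_mul (hDb.trans h2) (pow_bound hB2 (e5 d)) (by positivity) (by positivity)
      _ = B ^ ((d + 3) * (d * (d + 1)) + d * d) := by rw [← pow_add]
      _ ≤ B ^ CC := by
        refine hmono _ _ ?_
        rw [hCexp]
        have h8 : (d + 3) * (d * (d + 1)) + d * d = d ^ 3 + 5 * d ^ 2 + 3 * d := by ring
        rw [h8]
        have : 0 ≤ d ^ 3 := Nat.zero_le _
        have : 0 ≤ d ^ 2 := Nat.zero_le _
        omega
  · -- nd bound
    have h1 : |(D : ℝ) * p.coeff d * d.factorial - a d| ≤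
        (d.factorial : ℝ) * (((d : ℝ) + 1) * (2 * ((d : ℝ) + 1)) ^ d * E / (L : ℝ) ^ d) := by
      have h2 : (D : ℝ) * p.coeff d * d.factorial - a d = d.factorial * ((D : ℝ) * p.coeff d - a d * (d.factorial : ℝ)⁻¹) := by
        field_simp
      rw [h2, abs_mul, abs_of_pos hfac]
      exact mul_le_mul_of_nonneg_left hlead hfac.le
    have h3 : nd (((D.natAbs * d.factorial : ℕ) : ℝ) * p.coeff d) ≤ |(D : ℝ) * p.coeff d * d.factorial - a d| := by
      rcases le_or_gt 0 D with hD | hD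
      · have h4 : ((D.natAbs : ℕ) : ℝ) = D := by
          rw [Nat.cast_natAbs, abs_of_nonneg hD]
        have h5 := nd_le_int (((D.natAbs * d.factorial : ℕ) : ℝ) * p.coeff d) (a d)
        refine h5.trans (le_of_eq ?_)
        push_cast
        rw [h4]
        congr 1
        ring
      · have h4 : ((D.natAbs : ℕ) : ℝ) = -D := by
          rw [Nat.cast_natAbs, abs_of_neg hD]
          push_cast
          rfl
        have h5 := nd_le_int (((D.natAbs * d.factorial : ℕ) : ℝ) * p.coeff d) (-a d)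
        refine h5.trans (le_of_eq ?_)
        push_cast
        rw [h4, ← abs_neg]
        congr 1
        ring
    refine h3.trans (h1.trans ?_)
    have h6 : (2 * ((d : ℝ) + 1)) ^ d ≤ B ^ ((d + 1) * d) := by
      rw [pow_mul]
      exact pow_le_pow_left₀ (by positivity) h2d1B d
    have h7 : (d.factorial : ℝ) * (((d : ℝ) + 1) * (2 * ((d : ℝ) + 1)) ^ d * E / (L : ℝ) ^ d) =
        (d.factorial : ℝ) * (((d : ℝ) + 1) * (2 * ((d : ℝ) + 1)) ^ d * E) / (L : ℝ) ^ d := by ring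
    rw [h7]
    refine div_le_div_of_nonneg_right ?_ (by positivity)
    calc (d.factorial : ℝ) * (((d : ℝ) + 1) * (2 * ((d : ℝ) + 1)) ^ d * E)
        ≤ B ^ (d * d) * (B ^ d * B ^ ((d + 1) * d) * (B ^ (x2 + x3) * ε)) := by
          refine mul_le_mul (pow_bound hB2 (e5 d)) (mul_le_mul (mul_le_mul hd1B h6 (by positivity) (by positivity)) hEB hE0
            (by positivity)) (by positivity) (by positivity)
      _ = B ^ (d * d + d + (d + 1) * d + (x2 + x3)) * ε := by ring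
      _ ≤ B ^ CC * ε := by
        refine mul_le_mul_of_nonneg_right (hmono _ _ ?_) hε
        rw [hx3, hx2, hx1, hCexp]
        have h8 : d * d + d + (d + 1) * d + (d + d * (d + 1 + ((d + 3) * (d + 2) + 3)) +
          (2 * d + (d + 3) * (d * (d + 1)))) = 2 * d ^ 3 + 12 * d ^ 2 + 18 * d := by ring
        rw [h8]
        have : 0 ≤ d ^ 3 := Nat.zero_le _
        have : 0 ≤ d ^ 2 := Nat.zero_le _
        omega

open Pool.Agent.HUK (PF)

/-- Newton's formula. -/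
theorem pf_newton (d : ℕ) : ∀ (c : ℤ) (P : ℤ → ℤ), PF d c P → ∃ a : ℕ → ℤ, a d = d.factorial * c ∧
    ∀ n : ℕ, P n = ∑ j ∈ range (d + 1), a j * (n.choose j : ℤ) := by
  induction d with
  | zero =>
    intro c P hP
    refine ⟨fun _ => c, by simp, fun n => ?_⟩
    rw [hP]
    simp
  | succ d ih =>
    intro c P hP
    obtain ⟨a, ha1, ha2⟩ := ih _ _ (hP 1)
    refine ⟨fun j => if j = 0 then P 0 else a (j - 1), ?_, fun n => ?_⟩
    · simp only [Nat.succ_ne_zero, if_false, Nat.add_sub_cancel]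
      rw [ha1, Nat.factorial_succ]
      push_cast
      ring
    · rw [Finset.sum_range_succ']
      simp only [if_true, Nat.choose_zero_right, Nat.cast_one, mul_one, Nat.succ_ne_zero, if_false, Nat.add_sub_cancel]
      induction n with
      | zero =>
        simp
      | succ n ihn =>
        have h1 := ha2 n
        have h2 : P ((n + 1 : ℕ) : ℤ) = P n + ∑ j ∈ range (d + 1), a j * (n.choose j : ℤ) := by
          rw [← h1]
          push_cast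
          ring
        rw [h2, ihn]
        have h3 : ∑ j ∈ range (d + 1), a j * ((n + 1).choose (j + 1) : ℤ) =
            ∑ j ∈ range (d + 1), a j * (n.choose (j + 1) : ℤ) + ∑ j ∈ range (d + 1), a j * (n.choose j : ℤ) := by
          rw [← Finset.sum_add_distrib]
          refine Finset.sum_congr rfl fun j _ => ?_
          rw [Nat.choose_succ_succ]
          push_cast
          ring
        rw [h3]
        ring

open Classical in
/-- Vinogradov's lemma in the form of `HUK.av_main`, with an explicit exponent. -/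
theorem av_explicit (d : ℕ) (δ : ℝ) (hδ : 0 < δ) (hδ2 : δ ≤ 1 / 2) (L : ℕ) (hL : (1 / δ) ^ (16 * (d + 1) ^ 3) ≤ L)
    (c : ℤ) (P : ℤ → ℤ) (ψ ε : ℝ) (hP : PF d c P) (hε : 0 ≤ ε) (hεδ : ε ≤ δ ^ (16 * (d + 1) ^ 3))
    (hK : δ * L ≤ (((range L).filter fun k : ℕ => nd (ψ * P k) ≤ ε).card : ℝ)) :
    ∃ q : ℕ, 1 ≤ q ∧ (q : ℝ) ≤ (1 / δ) ^ (16 * (d + 1) ^ 3) ∧
      nd (q * (c * ψ)) ≤ (1 / δ) ^ (16 * (d + 1) ^ 3) * ε / (L : ℝ) ^ d := by
  obtain ⟨a, ha1, ha2⟩ := pf_newton d c P hP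
  obtain ⟨p, hpd⟩ : ∃ p : ℝ[X], p = ∑ j ∈ range (d + 1), C (ψ * a j) * Bp j := ⟨_, rfl⟩
  have hpe : ∀ k : ℕ, p.eval (k : ℝ) = ψ * P k := by
    intro k
    rw [ha2, hpd, Polynomial.eval_finsetSum]
    push_cast
    rw [Finset.mul_sum]
    refine Finset.sum_congr rfl fun j _ => ?_
    rw [Polynomial.eval_mul, Polynomial.eval_C, Bp_eval]
    ring
  have hpn : p.natDegree ≤ d := by
    rw [hpd]
    refine Polynomial.natDegree_sum_le_of_forall_le _ _ fun j hj => ?_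
    refine (Polynomial.natDegree_C_mul_le _ _).trans ((Bp_natDegree j).trans ?_)
    rw [Finset.mem_range] at hj
    omega
  have hpc : p.coeff d = c * ψ := by
    rw [hpd, Polynomial.finsetSum_coeff, Finset.sum_range_succ]
    have h1 : ∑ j ∈ range d, (C (ψ * a j) * Bp j).coeff d = 0 := by
      refine Finset.sum_eq_zero fun j hj => ?_
      rw [Polynomial.coeff_C_mul, Bp_coeff_lt (Finset.mem_range.1 hj), mul_zero]
    have hfac : (d.factorial : ℝ) ≠ 0 := by exact_mod_cast Nat.factorial_ne_zero d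
    rw [h1, zero_add, Polynomial.coeff_C_mul, Bp_coeff, ha1]
    push_cast
    field_simp
  obtain ⟨q, hq1, hq2, hq3⟩ := vinp d δ hδ hδ2 L hL p hpn ε hε hεδ _ (Finset.filter_subset _ _) hK (fun k hk => by
    rw [hpe]
    exact (Finset.mem_filter.1 hk).2)
  rw [hpc] at hq3
  exact ⟨q, hq1, hq2, hq3⟩

end Pool.Agent.Lib.H9V
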