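import Mathlib

/-!
# H9V (helper9), V1: discrete Remez inequality
-/

open Finset Polynomial

namespace Pool.Agent.Lib.H9V

/-- Spaced points of a finite set of integers. -/
theorem spaced (m g : ℕ) (E : Finset ℤ) (hE : m * g + 1 ≤ E.card) :
    ∃ x : Fin (m + 1) → ℤ, (∀ i, x i ∈ E) ∧ ∀ i j : Fin (m + 1), i < j → (g : ℤ) ≤ x j - x i := by
  obtain ⟨n, hn⟩ : ∃ n, n = E.card := ⟨_, rfl⟩
  have hlt : ∀ i : Fin (m + 1), (i : ℕ) * g < n := by
    intro i
    have h1 : (i : ℕ) ≤ m := by omega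
    have h2 : (i : ℕ) * g ≤ m * g := Nat.mul_le_mul_right g h1
    omega
  let e := E.orderEmbOfFin hn.symm
  have hstep : ∀ k : ℕ, ∀ a b : Fin n, (b : ℕ) = a + k → (k : ℤ) ≤ e b - e a := by
    intro k
    induction k with
    | zero =>
      intro a b hab
      have : a = b := Fin.ext (by omega)
      subst this
      simp
    | succ k ih =>
      intro a b hab
      have h1 : (a : ℕ) + k < n := by omega
      have h2 := ih a ⟨a + k, h1⟩ rfl
      have h3 : e ⟨a + k, h1⟩ < e b := by
        refine e.strictMono ?_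
        rw [Fin.lt_def]
        simp only
        omega
      push_cast
      omega
  refine ⟨fun i => e ⟨i * g, hlt i⟩, fun i => ?_, fun i j hij => ?_⟩
  · exact Finset.orderEmbOfFin_mem E hn.symm _
  · have hij' : (i : ℕ) < j := hij
    obtain ⟨k, hk⟩ : ∃ k, (j : ℕ) = i + 1 + k := ⟨j - i - 1, by omega⟩
    have h1 := hstep (g + k * g) ⟨i * g, hlt i⟩ ⟨j * g, hlt j⟩ (by
      simp only
      rw [hk]
      ring)
    have h2 : (0 : ℤ) ≤ (k : ℤ) * g := by positivity
    push_cast at h1
    simp only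
    linarith

/-- Discrete Remez inequality. -/
theorem remez (m g : ℕ) (hg : 1 ≤ g) (E : Finset ℤ) (hE : m * g + 1 ≤ E.card) (p : ℝ[X]) (hp : p.natDegree ≤ m)
    (η ℓ y : ℝ) (hη : ∀ x ∈ E, |p.eval (x : ℝ)| ≤ η) (hℓ : ∀ x ∈ E, |y - x| ≤ ℓ) :
    |p.eval y| ≤ (m + 1) * (ℓ / g) ^ m * η := by
  obtain ⟨x, hxE, hx⟩ := spaced m g E hE
  have hg0 : (0 : ℝ) < g := by exact_mod_cast hg
  have hdist : ∀ i j : Fin (m + 1), i ≠ j → (g : ℝ) ≤ |(x i : ℝ) - x j| := by
    intro i j hij
    rcases lt_or_gt_of_ne hij with h | h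
    · have h1 := hx i j h
      have h2 : (g : ℝ) ≤ (x j : ℝ) - x i := by exact_mod_cast h1
      rw [abs_sub_comm]
      exact h2.trans (le_abs_self _)
    · have h1 := hx j i h
      have h2 : (g : ℝ) ≤ (x i : ℝ) - x j := by exact_mod_cast h1
      exact h2.trans (le_abs_self _)
  have hinj : Set.InjOn (fun i : Fin (m + 1) => (x i : ℝ)) (Finset.univ : Finset (Fin (m + 1))) := by
    intro i _ j _ hij
    by_contra hne
    have h1 := hdist i j hne
    simp only at hij
    rw [hij, sub_self, abs_zero] at h1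
    linarith
  have hdeg : p.degree < (Finset.univ : Finset (Fin (m + 1))).card := by
    rw [Finset.card_univ, Fintype.card_fin]
    refine lt_of_le_of_lt Polynomial.degree_le_natDegree ?_
    exact_mod_cast Nat.lt_succ_of_le hp
  have hint := Lagrange.eq_interpolate hinj hdeg
  have hη0 : 0 ≤ η := (abs_nonneg _).trans (hη _ (hxE 0))
  have hℓ0 : 0 ≤ ℓ := (abs_nonneg _).trans (hℓ _ (hxE 0))
  have hbasis : ∀ i : Fin (m + 1), |(Lagrange.basis Finset.univ (fun i : Fin (m + 1) => (x i : ℝ)) i).eval y| ≤ (ℓ / g) ^ m := by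
    intro i
    rw [Lagrange.basis, Polynomial.eval_prod, Finset.abs_prod]
    have hcard : (Finset.univ.erase i : Finset (Fin (m + 1))).card = m := by
      rw [Finset.card_erase_of_mem (Finset.mem_univ _), Finset.card_univ, Fintype.card_fin, Nat.add_sub_cancel]
    calc ∏ j ∈ Finset.univ.erase i, |(Lagrange.basisDivisor (x i : ℝ) (x j : ℝ)).eval y|
        ≤ ∏ _j ∈ Finset.univ.erase i, (ℓ / g) := by
          refine Finset.prod_le_prod (fun _ _ => abs_nonneg _) fun j hj => ?_
          have hij : i ≠ j := (Finset.ne_of_mem_erase hj).symm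
          rw [Lagrange.basisDivisor, Polynomial.eval_mul, Polynomial.eval_C, Polynomial.eval_sub, Polynomial.eval_X,
            Polynomial.eval_C, abs_mul, abs_inv, mul_comm, ← div_eq_mul_inv]
          exact div_le_div₀ hℓ0 (hℓ _ (hxE j)) hg0 (hdist i j hij)
      _ = (ℓ / g) ^ m := by rw [Finset.prod_const, hcard]
  have heval : p.eval y = ∑ i : Fin (m + 1), p.eval (x i : ℝ) * (Lagrange.basis Finset.univ (fun i : Fin (m + 1) => (x i : ℝ)) i).eval y := by
    conv_lhs => rw [hint]
    rw [Lagrange.interpolate_apply, Polynomial.eval_finsetSum]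
    refine Finset.sum_congr rfl fun i _ => ?_
    rw [Polynomial.eval_mul, Polynomial.eval_C]
  rw [heval]
  calc |∑ i : Fin (m + 1), p.eval (x i : ℝ) * (Lagrange.basis Finset.univ (fun i : Fin (m + 1) => (x i : ℝ)) i).eval y|
      ≤ ∑ i : Fin (m + 1), |p.eval (x i : ℝ) * (Lagrange.basis Finset.univ (fun i : Fin (m + 1) => (x i : ℝ)) i).eval y| :=
        Finset.abs_sum_le_sum_abs _ _
    _ ≤ ∑ _i : Fin (m + 1), η * (ℓ / g) ^ m := by
        refine Finset.sum_le_sum fun i _ => ?_
        rw [abs_mul]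
        exact mul_le_mul (hη _ (hxE i)) (hbasis i) (abs_nonneg _) hη0
    _ = (m + 1) * (ℓ / g) ^ m * η := by
        rw [Finset.sum_const, Finset.card_univ, Fintype.card_fin, nsmul_eq_mul]
        push_cast
        ring

end Pool.Agent.Lib.H9V
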