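import Pool.Agent.Lib.H9V.V1
import Pool.Agent.Lib.H84V.Defs

/-!
# H9V (helper9), V2: a polynomial with small increments which is often near integers is near one integer
-/

open Finset Polynomial

namespace Pool.Agent.Lib.H9V

open Pool.Agent.Lib.H84V (nd nd_nonneg nd_sub_int nd_eq_abs nd_le_half)

/-- Remez constant. -/
noncomputable def Rc (d : ℕ) (δ : ℝ) : ℝ := ((d : ℝ) + 1) * (2 * ((d : ℝ) + 1) / δ) ^ d

theorem Rc_pos (d : ℕ) {δ : ℝ} (hδ : 0 < δ) : 0 < Rc d δ := by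
  unfold Rc
  positivity

theorem Rc_ge_one (d : ℕ) {δ : ℝ} (hδ : 0 < δ) (hδ1 : δ ≤ 1) : 1 ≤ Rc d δ := by
  unfold Rc
  have h1 : (1 : ℝ) ≤ (d : ℝ) + 1 := by linarith [(Nat.cast_nonneg d : (0 : ℝ) ≤ d)]
  have h2 : (1 : ℝ) ≤ 2 * ((d : ℝ) + 1) / δ := by
    rw [le_div_iff₀ hδ]
    linarith
  calc (1 : ℝ) = 1 * 1 := by ring
    _ ≤ _ := mul_le_mul h1 (one_le_pow₀ h2) (by norm_num) (by linarith)

/-- Remez on an interval of natural numbers. -/
theorem remezN (d a ℓ : ℕ) (δ : ℝ) (hδ : 0 < δ) (E : Finset ℕ) (hE : E ⊆ Ico a (a + ℓ)) (hd : δ * ℓ ≤ E.card)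
    (h2 : 2 * (d + 1) ≤ E.card) (p : ℝ[X]) (hp : p.natDegree ≤ d) (η : ℝ) (hη : ∀ x ∈ E, |p.eval (x : ℝ)| ≤ η)
    (k : ℕ) (hk : k ∈ Ico a (a + ℓ)) : |p.eval (k : ℝ)| ≤ Rc d δ * η := by
  obtain ⟨g, hgd⟩ : ∃ g : ℕ, g = E.card / (d + 1) := ⟨_, rfl⟩
  have hg2 : 2 ≤ g := by
    rw [hgd]
    exact (Nat.le_div_iff_mul_le (by omega)).2 h2
  have hgE : (d + 1) * g ≤ E.card := by
    rw [hgd]
    exact Nat.mul_div_le _ _
  have hgE2 : E.card ≤ (d + 1) * g + d := by
    have h3 := Nat.div_add_mod E.card (d + 1)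
    have h4 := Nat.mod_lt E.card (show 0 < d + 1 by omega)
    rw [← hgd] at h3
    omega
  let E' : Finset ℤ := E.map ⟨fun n : ℕ => (n : ℤ), Nat.cast_injective⟩
  have hcard : E'.card = E.card := Finset.card_map _
  have hmem : ∀ x ∈ E', ∃ n ∈ E, (n : ℤ) = x := by
    intro x hx
    rw [Finset.mem_map] at hx
    exact hx
  have h3 : d * g + 1 ≤ E'.card := by
    rw [hcard]
    have : (d + 1) * g = d * g + g := by ring
    omega
  have hηn : 0 ≤ η := by
    have hne : E.Nonempty := Finset.card_pos.1 (by omega)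
    obtain ⟨x, hx⟩ := hne
    exact (abs_nonneg _).trans (hη x hx)
  have h4 := remez d g (by omega) E' h3 p hp η ℓ (k : ℝ) (by
    intro x hx
    obtain ⟨n, hn, rfl⟩ := hmem x hx
    have := hη n hn
    push_cast
    exact this) (by
    intro x hx
    obtain ⟨n, hn, rfl⟩ := hmem x hx
    have h5 := Finset.mem_Ico.1 (hE hn)
    have h6 := Finset.mem_Ico.1 hk
    push_cast
    rw [abs_le]
    have h7 : (a : ℝ) ≤ n := by exact_mod_cast h5.1
    have h8 : (n : ℝ) ≤ a + ℓ := by exact_mod_cast h5.2.le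
    have h9 : (a : ℝ) ≤ k := by exact_mod_cast h6.1
    have h10 : (k : ℝ) ≤ a + ℓ := by exact_mod_cast h6.2.le
    constructor <;> linarith)
  refine h4.trans (mul_le_mul_of_nonneg_right ?_ hηn)
  unfold Rc
  refine mul_le_mul_of_nonneg_left (pow_le_pow_left₀ (by positivity) ?_ d) (by positivity)
  have hg0 : (0 : ℝ) < g := by
    have : 0 < g := by omega
    exact_mod_cast this
  rw [div_le_div_iff₀ hg0 hδ]
  have h5 : (E.card : ℝ) ≤ (d + 1) * g + d := by exact_mod_cast hgE2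
  have h6 : (1 : ℝ) ≤ g := by
    have : 1 ≤ g := by omega
    exact_mod_cast this
  have h7 : (d : ℝ) ≤ (d + 1) * g := by nlinarith [(Nat.cast_nonneg d : (0 : ℝ) ≤ d)]
  calc (ℓ : ℝ) * δ = δ * ℓ := by ring
    _ ≤ E.card := hd
    _ ≤ (d + 1) * g + d := h5
    _ ≤ 2 * ((d : ℝ) + 1) * g := by linarith

/-- Being near an integer and within `1/4` of `N` means being near `N`. -/
theorem near_of_quarter {x ε : ℝ} (N : ℤ) (h1 : |x - N| ≤ 1 / 4) (h2 : nd x ≤ ε) : |x - N| ≤ ε := by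
  have h3 : nd (x - N) = |x - N| := nd_eq_abs (h1.trans (by norm_num))
  rw [← h3, nd_sub_int]
  exact h2

/-- A polynomial with small increments, near integers on a dense set, is near ONE integer on every interval in which the set is
dense. -/
theorem one_integer (d L ℓ0 : ℕ) (δ ε η : ℝ) (hδ : 0 < δ) (hδ1 : δ ≤ 1) (hε : 0 ≤ ε) (hη0 : 0 ≤ η) (K : Finset ℕ)
    (hℓ0 : 6 * ((d : ℝ) + 1) ≤ δ * ℓ0) (f : ℝ[X]) (hf : f.natDegree ≤ d)
    (hinc : ∀ k : ℕ, k + 1 < L → |f.eval ((k + 1 : ℕ) : ℝ) - f.eval (k : ℝ)| ≤ η)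
    (hnear : ∀ x ∈ K, nd (f.eval (x : ℝ)) ≤ ε)
    (hsmall : Rc d (1 / 3) * (Rc d δ * ε + ℓ0 * η + ε) ≤ 1 / 4) :
    ∀ ℓ : ℕ, 1 ≤ ℓ → ∀ a : ℕ, a + ℓ ≤ L → δ * ℓ ≤ (K ∩ Ico a (a + ℓ)).card →
      ∃ N : ℤ, ∀ k ∈ Ico a (a + ℓ), |f.eval (k : ℝ) - N| ≤ Rc d δ * ε + ℓ0 * η + ε := by
  have hR := Rc_pos d hδ
  have hR3 := Rc_ge_one d (show (0 : ℝ) < 1 / 3 by norm_num) (by norm_num)
  have hd0 : (0 : ℝ) ≤ d := Nat.cast_nonneg d
  -- increments over longer distances
  have hlong : ∀ n a : ℕ, a + n < L → |f.eval ((a + n : ℕ) : ℝ) - f.eval (a : ℝ)| ≤ n * η := by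
    intro n
    induction n with
    | zero =>
      intro a _
      simp
    | succ n ih =>
      intro a h
      have h1 := ih a (by omega)
      have h2 := hinc (a + n) (by omega)
      have h3 : f.eval ((a + (n + 1) : ℕ) : ℝ) - f.eval (a : ℝ) =
          (f.eval ((a + n + 1 : ℕ) : ℝ) - f.eval ((a + n : ℕ) : ℝ)) + (f.eval ((a + n : ℕ) : ℝ) - f.eval (a : ℝ)) := by
        rw [show a + (n + 1) = a + n + 1 by ring]
        ring
      rw [h3]
      refine (abs_add_le _ _).trans ?_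
      push_cast at h1 h2 ⊢
      linarith
  have hlong' : ∀ a ℓ : ℕ, a + ℓ ≤ L → ∀ x ∈ Ico a (a + ℓ), ∀ k ∈ Ico a (a + ℓ), |f.eval (k : ℝ) - f.eval (x : ℝ)| ≤ ℓ * η := by
    intro a ℓ haL x hx k hk
    rw [Finset.mem_Ico] at hx hk
    rcases le_total x k with h | h
    · obtain ⟨n, rfl⟩ := Nat.exists_eq_add_of_le h
      refine (hlong n x (by omega)).trans (mul_le_mul_of_nonneg_right ?_ hη0)
      have : n ≤ ℓ := by omega
      exact_mod_cast this
    · obtain ⟨n, rfl⟩ := Nat.exists_eq_add_of_le h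
      rw [abs_sub_comm]
      refine (hlong n k (by omega)).trans (mul_le_mul_of_nonneg_right ?_ hη0)
      have : n ≤ ℓ := by omega
      exact_mod_cast this
  intro ℓ
  induction ℓ using Nat.strong_induction_on with
  | _ ℓ ih =>
    intro hℓ a haL hdens
    by_cases hsm : ℓ ≤ ℓ0
    · -- short interval
      have hpos : 0 < (K ∩ Ico a (a + ℓ)).card := by
        have hℓr : (1 : ℝ) ≤ ℓ := by exact_mod_cast hℓ
        have h1 : (0 : ℝ) < ((K ∩ Ico a (a + ℓ)).card : ℝ) := lt_of_lt_of_le (by positivity) hdens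
        exact_mod_cast h1
      obtain ⟨x, hx⟩ := Finset.card_pos.1 hpos
      rw [Finset.mem_inter] at hx
      refine ⟨round (f.eval (x : ℝ)), fun k hk => ?_⟩
      have h1 := hlong' a ℓ haL x hx.2 k hk
      have h2 := hnear x hx.1
      have h3 : |f.eval (x : ℝ) - round (f.eval (x : ℝ))| ≤ ε := h2
      have h4 : (ℓ : ℝ) * η ≤ ℓ0 * η := mul_le_mul_of_nonneg_right (by exact_mod_cast hsm) hη0
      have h5 : f.eval (k : ℝ) - round (f.eval (x : ℝ)) = (f.eval (k : ℝ) - f.eval (x : ℝ)) + (f.eval (x : ℝ) - round (f.eval (x : ℝ))) := by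
        ring
      rw [h5]
      refine (abs_add_le _ _).trans ?_
      have h6 : 0 ≤ Rc d δ * ε := by positivity
      linarith
    · push Not at hsm
      -- long interval
      have hℓ0r : (6 : ℝ) * (d + 1) ≤ ℓ0 := by
        refine hℓ0.trans ?_
        have : (0 : ℝ) ≤ ℓ0 := Nat.cast_nonneg _
        nlinarith
      have hℓ06 : 6 * (d + 1) ≤ ℓ0 := by exact_mod_cast hℓ0r
      -- one of the two halves is dense
      have key : ∃ b ℓ' : ℕ, 1 ≤ ℓ' ∧ ℓ' < ℓ ∧ a ≤ b ∧ b + ℓ' ≤ a + ℓ ∧ ℓ ≤ 3 * ℓ' ∧ δ * ℓ' ≤ (K ∩ Ico b (b + ℓ')).card := by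
        by_contra hcon
        push Not at hcon
        obtain ⟨u, hu⟩ : ∃ u, u = ℓ / 2 := ⟨_, rfl⟩
        have h1 := hcon a u (by omega) (by omega) le_rfl (by omega) (by omega)
        have h2 := hcon (a + u) (ℓ - u) (by omega) (by omega) (by omega) (by omega) (by omega)
        have h3 : (K ∩ Ico a (a + ℓ)).card ≤ (K ∩ Ico a (a + u)).card + (K ∩ Ico (a + u) (a + u + (ℓ - u))).card := by
          refine le_trans (Finset.card_le_card ?_) (Finset.card_union_le _ _)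
          intro x hx
          rw [Finset.mem_inter, Finset.mem_Ico] at hx
          rw [Finset.mem_union, Finset.mem_inter, Finset.mem_inter, Finset.mem_Ico, Finset.mem_Ico]
          by_cases hxu : x < a + u
          · left
            exact ⟨hx.1, hx.2.1, hxu⟩
          · right
            exact ⟨hx.1, by omega, by omega⟩
        have h4 : (((K ∩ Ico a (a + ℓ)).card : ℕ) : ℝ) ≤ ((K ∩ Ico a (a + u)).card : ℝ) + ((K ∩ Ico (a + u) (a + u + (ℓ - u))).card : ℝ) := by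
          exact_mod_cast h3
        have h5 : ((ℓ - u : ℕ) : ℝ) = (ℓ : ℝ) - u := by
          rw [Nat.cast_sub (by omega)]
        rw [h5] at h2
        nlinarith
      obtain ⟨b, ℓ', hℓ'1, hℓ'2, hab, hbl, h3l, hdens'⟩ := key
      obtain ⟨N, hN⟩ := ih ℓ' hℓ'2 hℓ'1 b (by omega) hdens'
      -- extrapolate to the whole interval
      have hfN : (f - C (N : ℝ)).natDegree ≤ d := by
        refine (Polynomial.natDegree_sub_le _ _).trans ?_
        rw [Polynomial.natDegree_C]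
        exact max_le hf (Nat.zero_le _)
      have hsub : Ico b (b + ℓ') ⊆ Ico a (a + ℓ) := Finset.Ico_subset_Ico hab hbl
      have hquarter : ∀ k ∈ Ico a (a + ℓ), |f.eval (k : ℝ) - N| ≤ 1 / 4 := by
        intro k hk
        have h1 := remezN d a ℓ (1 / 3) (by norm_num) (Ico b (b + ℓ')) hsub (by
          rw [Nat.card_Ico, Nat.add_sub_cancel_left]
          have : (ℓ : ℝ) ≤ 3 * ℓ' := by exact_mod_cast h3l
          linarith) (by
          rw [Nat.card_Ico, Nat.add_sub_cancel_left]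
          omega) (f - C (N : ℝ)) hfN (Rc d δ * ε + ℓ0 * η + ε) (by
          intro x hx
          rw [Polynomial.eval_sub, Polynomial.eval_C]
          exact hN x hx) k hk
        rw [Polynomial.eval_sub, Polynomial.eval_C] at h1
        exact h1.trans hsmall
      have hK : ∀ x ∈ K ∩ Ico a (a + ℓ), |(f - C (N : ℝ)).eval (x : ℝ)| ≤ ε := by
        intro x hx
        rw [Finset.mem_inter] at hx
        rw [Polynomial.eval_sub, Polynomial.eval_C]
        exact near_of_quarter N (hquarter x hx.2) (hnear x hx.1)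
      refine ⟨N, fun k hk => ?_⟩
      have h1 := remezN d a ℓ δ hδ (K ∩ Ico a (a + ℓ)) Finset.inter_subset_right hdens (by
        have h2 : (2 * ((d : ℝ) + 1)) ≤ ((K ∩ Ico a (a + ℓ)).card : ℝ) := by
          refine le_trans ?_ hdens
          have h3 : δ * (ℓ0 : ℝ) ≤ δ * ℓ := mul_le_mul_of_nonneg_left (by exact_mod_cast hsm.le) hδ.le
          linarith
        exact_mod_cast h2) (f - C (N : ℝ)) hfN ε hK k hk
      rw [Polynomial.eval_sub, Polynomial.eval_C] at h1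
      refine h1.trans ?_
      have h2 : 0 ≤ (ℓ0 : ℝ) * η := by positivity
      linarith

/-- The sharp form on the whole interval. -/
theorem one_integer' (d L ℓ0 : ℕ) (δ ε η : ℝ) (hδ : 0 < δ) (hδ1 : δ ≤ 1) (hε : 0 ≤ ε) (hη0 : 0 ≤ η) (K : Finset ℕ)
    (hℓ0 : 6 * ((d : ℝ) + 1) ≤ δ * ℓ0) (hL : ℓ0 < L) (f : ℝ[X]) (hf : f.natDegree ≤ d) (hKL : K ⊆ range L)
    (hK : δ * L ≤ K.card)
    (hinc : ∀ k : ℕ, k + 1 < L → |f.eval ((k + 1 : ℕ) : ℝ) - f.eval (k : ℝ)| ≤ η)
    (hnear : ∀ x ∈ K, nd (f.eval (x : ℝ)) ≤ ε)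
    (hsmall : Rc d (1 / 3) * (Rc d δ * ε + ℓ0 * η + ε) ≤ 1 / 4) :
    ∃ N : ℤ, ∀ k < L, |f.eval (k : ℝ) - N| ≤ Rc d δ * ε := by
  have hKi : K ∩ Ico 0 (0 + L) = K := by
    rw [Finset.inter_eq_left]
    intro x hx
    have := Finset.mem_range.1 (hKL hx)
    rw [Finset.mem_Ico]
    omega
  obtain ⟨N, hN⟩ := one_integer d L ℓ0 δ ε η hδ hδ1 hε hη0 K hℓ0 f hf hinc hnear hsmall L (by omega) 0 (by omega)
    (by rw [hKi]; exact hK)
  have hR3 := Rc_ge_one d (show (0 : ℝ) < 1 / 3 by norm_num) (by norm_num)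
  have hpos : 0 ≤ Rc d δ * ε + ℓ0 * η + ε := by
    have := Rc_pos d hδ
    positivity
  have hquarter : Rc d δ * ε + ℓ0 * η + ε ≤ 1 / 4 := by
    refine le_trans ?_ hsmall
    nlinarith
  have hfN : (f - C (N : ℝ)).natDegree ≤ d := by
    refine (Polynomial.natDegree_sub_le _ _).trans ?_
    rw [Polynomial.natDegree_C]
    exact max_le hf (Nat.zero_le _)
  refine ⟨N, fun k hk => ?_⟩
  have h1 := remezN d 0 L δ hδ K (by
    intro x hx
    have := Finset.mem_range.1 (hKL hx)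
    rw [Finset.mem_Ico]
    omega) hK (by
      have h2 : (2 * ((d : ℝ) + 1)) ≤ (K.card : ℝ) := by
        refine le_trans ?_ hK
        have h3 : δ * (ℓ0 : ℝ) ≤ δ * L := mul_le_mul_of_nonneg_left (by exact_mod_cast hL.le) hδ.le
        have h4 : (0 : ℝ) ≤ d := Nat.cast_nonneg d
        linarith
      exact_mod_cast h2) (f - C (N : ℝ)) hfN ε (by
      intro x hx
      rw [Polynomial.eval_sub, Polynomial.eval_C]
      refine near_of_quarter N ?_ (hnear x hx)
      have hx' := Finset.mem_range.1 (hKL hx)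
      exact (hN x (by rw [Finset.mem_Ico]; omega)).trans hquarter) k (by rw [Finset.mem_Ico]; omega)
  rw [Polynomial.eval_sub, Polynomial.eval_C] at h1
  exact h1

end Pool.Agent.Lib.H9V
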