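import Pool.Agent.Lib.H9V.V2

/-!
# H9V (helper9), V3: difference operator, binomial polynomials, Lemma R
-/

open Finset Polynomial

namespace Pool.Agent.Lib.H9V

open Pool.Agent.Lib.H84V (nd nd_nonneg nd_sub_int nd_eq_abs nd_le_half)

/-- Forward difference of a polynomial. -/
noncomputable def Dp (p : ℝ[X]) : ℝ[X] := taylor 1 p - p

theorem Dp_eval (p : ℝ[X]) (x : ℝ) : (Dp p).eval x = p.eval (x + 1) - p.eval x := by
  rw [Dp, Polynomial.eval_sub, Polynomial.taylor_eval]

theorem Dp_natDegree (p : ℝ[X]) (m : ℕ) (hp : p.natDegree ≤ m + 1) : (Dp p).natDegree ≤ m := by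
  by_cases h0 : Dp p = 0
  · rw [h0, Polynomial.natDegree_zero]
    exact Nat.zero_le _
  · have hp0 : p ≠ 0 := by
      rintro rfl
      exact h0 (by simp [Dp])
    have h1 : (Dp p).degree < p.degree := by
      rw [Dp]
      refine Polynomial.degree_sub_lt_right (Polynomial.degree_taylor p 1) hp0 ?_
      exact Polynomial.leadingCoeff_taylor (r := (1 : ℝ)) (f := p)
    have h2 := Polynomial.natDegree_lt_natDegree h0 h1
    omega

/-- The binomial polynomial. -/
noncomputable def Bp (j : ℕ) : ℝ[X] := C ((j.factorial : ℝ)⁻¹) * descPochhammer ℝ j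

theorem Bp_eval (j n : ℕ) : (Bp j).eval (n : ℝ) = (n.choose j : ℝ) := by
  rw [Bp, Polynomial.eval_mul, Polynomial.eval_C, descPochhammer_eval_eq_descFactorial, Nat.descFactorial_eq_factorial_mul_choose]
  push_cast
  rw [← mul_assoc, inv_mul_cancel₀ (by exact_mod_cast Nat.factorial_ne_zero j), one_mul]

theorem Bp_natDegree (j : ℕ) : (Bp j).natDegree ≤ j := by
  rw [Bp]
  refine (Polynomial.natDegree_C_mul_le _ _).trans ?_
  rw [descPochhammer_natDegree]

theorem Bp_coeff (j : ℕ) : (Bp j).coeff j = (j.factorial : ℝ)⁻¹ := by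
  rw [Bp, Polynomial.coeff_C_mul]
  have h1 : (descPochhammer ℝ j).coeff j = 1 := by
    have h2 := monic_descPochhammer ℝ j
    have h3 : (descPochhammer ℝ j).natDegree = j := descPochhammer_natDegree ℝ j
    have h4 : (descPochhammer ℝ j).coeff (descPochhammer ℝ j).natDegree = 1 := h2
    rw [h3] at h4
    exact h4
  rw [h1, mul_one]

theorem Bp_coeff_lt {i j : ℕ} (h : i < j) : (Bp i).coeff j = 0 :=
  Polynomial.coeff_eq_zero_of_natDegree_lt (lt_of_le_of_lt (Bp_natDegree i) h)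

/-- Iterated differences of an integer combination of binomial polynomials take integral values: not needed; instead `nd` of `h - N`. -/
theorem sum_Bp_eval (a : ℕ → ℤ) (n k : ℕ) :
    (∑ j ∈ range n, C (a j : ℝ) * Bp j).eval (k : ℝ) = ((∑ j ∈ range n, a j * (k.choose j : ℤ) : ℤ) : ℝ) := by
  rw [Polynomial.eval_finsetSum]
  push_cast
  refine Finset.sum_congr rfl fun j _ => ?_
  rw [Polynomial.eval_mul, Polynomial.eval_C, Bp_eval]

/-- LEMMA R. -/
theorem lemR (d L ℓ0 : ℕ) (δ ε : ℝ) (hδ : 0 < δ) (hδ1 : δ ≤ 1) (hε : 0 ≤ ε) (K : Finset ℕ)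
    (hℓ0 : 6 * ((d : ℝ) + 1) ≤ δ * ℓ0) (hL : ℓ0 < L) (hKL : K ⊆ range L) (hK : δ * L ≤ K.card)
    (hsmall : Rc d (1 / 3) * (Rc d δ * ε + ℓ0 * (Rc d δ * ε) + ε) ≤ 1 / 4) :
    ∀ m : ℕ, m ≤ d → ∀ h : ℝ[X], h.natDegree ≤ m → (∀ x ∈ K, ∀ j ≤ m, nd ((Dp^[j] h).eval (x : ℝ)) ≤ ε) →
      ∃ a : ℕ → ℤ, ∀ k < L, |h.eval (k : ℝ) - (∑ j ∈ range (m + 1), C (a j : ℝ) * Bp j).eval (k : ℝ)| ≤ Rc d δ * ε := by
  have hR := Rc_pos d hδ
  have hRε : 0 ≤ Rc d δ * ε := by positivity
  intro m
  induction m with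
  | zero =>
    intro _ h hh hnear
    obtain ⟨N, hN⟩ := one_integer' d L ℓ0 δ ε (Rc d δ * ε) hδ hδ1 hε hRε K hℓ0 hL h (by omega) hKL hK (by
      intro k _
      have h1 : h = C (h.coeff 0) := Polynomial.eq_C_of_natDegree_le_zero hh
      rw [h1, Polynomial.eval_C, Polynomial.eval_C, sub_self, abs_zero]
      exact hRε) (fun x hx => hnear x hx 0 le_rfl) hsmall
    refine ⟨fun _ => N, fun k hk => ?_⟩
    have h1 := hN k hk
    rw [sum_Bp_eval]
    simp only [zero_add, Finset.sum_range_one, Nat.choose_zero_right, Nat.cast_one, mul_one]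
    exact h1
  | succ m ih =>
    intro hm h hh hnear
    obtain ⟨a, ha⟩ := ih (by omega) (Dp h) (Dp_natDegree h m hh) (by
      intro x hx j hj
      have h1 := hnear x hx (j + 1) (by omega)
      rw [Function.iterate_succ_apply] at h1
      exact h1)
    -- subtract the antiderivative
    obtain ⟨N0, hN0⟩ : ∃ N0 : ℝ[X], N0 = ∑ j ∈ range (m + 1), C (a j : ℝ) * Bp (j + 1) := ⟨_, rfl⟩
    have hN0e : ∀ k : ℕ, N0.eval (k : ℝ) = ((∑ j ∈ range (m + 1), a j * (k.choose (j + 1) : ℤ) : ℤ) : ℝ) := by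
      intro k
      rw [hN0, Polynomial.eval_finsetSum]
      push_cast
      refine Finset.sum_congr rfl fun j _ => ?_
      rw [Polynomial.eval_mul, Polynomial.eval_C, Bp_eval]
    have hN0d : N0.natDegree ≤ m + 1 := by
      rw [hN0]
      refine Polynomial.natDegree_sum_le_of_forall_le _ _ fun j hj => ?_
      refine (Polynomial.natDegree_C_mul_le _ _).trans ((Bp_natDegree (j + 1)).trans ?_)
      rw [Finset.mem_range] at hj
      omega
    have hfd : (h - N0).natDegree ≤ d := by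
      refine (Polynomial.natDegree_sub_le _ _).trans ?_
      exact max_le (hh.trans hm) (hN0d.trans hm)
    obtain ⟨N, hN⟩ := one_integer' d L ℓ0 δ ε (Rc d δ * ε) hδ hδ1 hε hRε K hℓ0 hL (h - N0) hfd hKL hK (by
      intro k hk
      have h1 := ha k (by omega)
      rw [Dp_eval, sum_Bp_eval] at h1
      rw [Polynomial.eval_sub, Polynomial.eval_sub, hN0e, hN0e]
      have h2 : (∑ j ∈ range (m + 1), a j * ((k + 1).choose (j + 1) : ℤ)) - (∑ j ∈ range (m + 1), a j * (k.choose (j + 1) : ℤ)) =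
          ∑ j ∈ range (m + 1), a j * (k.choose j : ℤ) := by
        rw [← Finset.sum_sub_distrib]
        refine Finset.sum_congr rfl fun j _ => ?_
        rw [Nat.choose_succ_succ]
        push_cast
        ring
      have h3 : ((∑ j ∈ range (m + 1), a j * ((k + 1).choose (j + 1) : ℤ) : ℤ) : ℝ) - ((∑ j ∈ range (m + 1), a j * (k.choose (j + 1) : ℤ) : ℤ) : ℝ) =
          ((∑ j ∈ range (m + 1), a j * (k.choose j : ℤ) : ℤ) : ℝ) := by
        rw [← h2]
        push_cast
        ring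
      have h4 : h.eval ((k + 1 : ℕ) : ℝ) - ((∑ j ∈ range (m + 1), a j * ((k + 1).choose (j + 1) : ℤ) : ℤ) : ℝ) -
          (h.eval (k : ℝ) - ((∑ j ∈ range (m + 1), a j * (k.choose (j + 1) : ℤ) : ℤ) : ℝ)) =
          h.eval ((k : ℝ) + 1) - h.eval (k : ℝ) - ((∑ j ∈ range (m + 1), a j * (k.choose j : ℤ) : ℤ) : ℝ) := by
        rw [← h3]
        push_cast
        ring
      rw [h4]
      exact h1) (by
      intro x hx
      have h1 := hnear x hx 0 (Nat.zero_le _)
      rw [Function.iterate_zero_apply] at h1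
      rw [Polynomial.eval_sub, hN0e, nd_sub_int]
      exact h1) hsmall
    refine ⟨fun j => if j = 0 then N else a (j - 1), fun k hk => ?_⟩
    have h1 := hN k hk
    rw [Polynomial.eval_sub, hN0e] at h1
    rw [sum_Bp_eval, Finset.sum_range_succ']
    simp only [if_true, Nat.choose_zero_right, Nat.cast_one, mul_one, Nat.succ_ne_zero, if_false, Nat.add_sub_cancel]
    have h2 : h.eval (k : ℝ) - (((∑ j ∈ range (m + 1), a j * (k.choose (j + 1) : ℤ)) + N : ℤ) : ℝ) =
        h.eval (k : ℝ) - ((∑ j ∈ range (m + 1), a j * (k.choose (j + 1) : ℤ) : ℤ) : ℝ) - N := by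
      push_cast
      ring
    rw [h2]
    exact h1

end Pool.Agent.Lib.H9V
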