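import Pool.Agent.Lib.H9V.V3

/-!
# H9V (helper9), V4: popular shapes, Lagrange interpolation with integral coefficients, leading coefficient
-/

open Finset Polynomial

namespace Pool.Agent.Lib.H9V

open Pool.Agent.Lib.H84V (nd nd_nonneg nd_sub_int nd_eq_abs nd_le_half nd_sub_le nd_le_int)

/-- Iterated differences. -/
theorem nd_diff (j : ℕ) : ∀ (h : ℝ[X]) (x e : ℝ), (∀ i ≤ j, nd (h.eval (x + i)) ≤ e) → nd ((Dp^[j] h).eval x) ≤ 2 ^ j * e := by
  induction j with
  | zero =>
    intro h x e hi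
    have h1 := hi 0 le_rfl
    rw [Nat.cast_zero, add_zero] at h1
    rw [Function.iterate_zero_apply, pow_zero, one_mul]
    exact h1
  | succ j ih =>
    intro h x e hi
    rw [Function.iterate_succ_apply, pow_succ, mul_assoc]
    refine ih (Dp h) x (2 * e) fun i hij => ?_
    rw [Dp_eval]
    refine (nd_sub_le _ _).trans ?_
    have h1 := hi (i + 1) (by omega)
    have h2 := hi i (by omega)
    push_cast at h1
    rw [← add_assoc] at h1
    linarith

open Classical in
/-- Windows: a dense set contains many translates of one shape. -/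
theorem shapes (d L w : ℕ) (δ : ℝ) (hw : 2 * ((d : ℝ) + 1) ≤ δ * w) (hw1 : 1 ≤ w) (hL : 4 * (d : ℝ) ≤ δ * L)
    (K : Finset ℕ) (hKL : K ⊆ range L) (hK : δ * L ≤ K.card) :
    ∃ s : Fin (d + 1) → ℕ, StrictMono s ∧ (∀ i, s i < w) ∧ s 0 = 0 ∧ ∃ K1 : Finset ℕ, K1 ⊆ range L ∧
      δ * L / (4 * (w : ℝ) ^ (d + 2)) ≤ K1.card ∧ ∀ x ∈ K1, ∀ i, x + s i ∈ K := by
  have hw0 : (0 : ℝ) < w := by exact_mod_cast hw1
  have hd0 : (0 : ℝ) ≤ d := Nat.cast_nonneg d
  -- the fibres
  obtain ⟨F, hF⟩ : ∃ F : ℕ → Finset ℕ, ∀ j, F j = K.filter fun x => x / w = j := ⟨_, fun _ => rfl⟩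
  obtain ⟨n, hn⟩ : ∃ n : ℕ, n = L / w + 1 := ⟨_, rfl⟩
  have hsum : K.card = ∑ j ∈ range n, (F j).card := by
    simp only [hF]
    refine Finset.card_eq_sum_card_fiberwise fun x hx => ?_
    have h1 := Finset.mem_range.1 (hKL hx)
    have h2 : x / w ≤ L / w := Nat.div_le_div_right h1.le
    exact Finset.mem_coe.2 (Finset.mem_range.2 (by omega))
  have hFw : ∀ j, (F j).card ≤ w := by
    intro j
    have h1 : F j ⊆ Ico (j * w) (j * w + w) := by
      intro x hx
      rw [hF, Finset.mem_filter] at hx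
      have h2 := Nat.div_add_mod x w
      have h3 := Nat.mod_lt x (show 0 < w by omega)
      rw [hx.2] at h2
      rw [Finset.mem_Ico]
      have h4 : w * j = j * w := mul_comm _ _
      omega
    have h2 := Finset.card_le_card h1
    rw [Nat.card_Ico] at h2
    omega
  obtain ⟨R, hR⟩ : ∃ R : Finset ℕ, R = (range n).filter fun j => d + 1 ≤ (F j).card := ⟨_, rfl⟩
  have hRcard : δ * L / (4 * w) ≤ R.card := by
    have h1 : ∑ j ∈ range n, (F j).card ≤ R.card * w + n * d := by
      rw [hR, ← Finset.sum_filter_add_sum_filter_not (range n) (fun j => d + 1 ≤ (F j).card)]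
      refine Nat.add_le_add ?_ ?_
      · refine (Finset.sum_le_card_nsmul _ _ w fun j _ => hFw j).trans ?_
        rw [smul_eq_mul]
      · refine (Finset.sum_le_card_nsmul _ _ d fun j hj => ?_).trans ?_
        · rw [Finset.mem_filter] at hj
          omega
        · rw [smul_eq_mul]
          refine Nat.mul_le_mul_right d ((Finset.card_filter_le _ _).trans ?_)
          rw [Finset.card_range]
    rw [← hsum] at h1
    have h2 : (K.card : ℝ) ≤ R.card * w + n * d := by exact_mod_cast h1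
    have h3 : (n : ℝ) ≤ L / w + 1 := by
      rw [hn]
      push_cast
      have := @Nat.cast_div_le ℝ _ _ _ L w
      linarith
    have h4 : (n : ℝ) * d ≤ (L / w + 1) * d := mul_le_mul_of_nonneg_right h3 hd0
    have h5 : (L : ℝ) / w * d ≤ δ * L / 2 := by
      rw [div_mul_eq_mul_div, div_le_div_iff₀ hw0 (by norm_num)]
      have h6 : (2 : ℝ) * d ≤ δ * w := by linarith
      have h7 : (0 : ℝ) ≤ L := Nat.cast_nonneg _
      nlinarith
    rw [div_le_iff₀ (by positivity)]
    nlinarith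
  -- base points and shapes
  have hcase : ∀ j ∈ R, ∃ s : Fin (d + 1) → ℕ, ∃ b : ℕ, StrictMono s ∧ (∀ i, s i < w) ∧ s 0 = 0 ∧ b / w = j ∧ ∀ i, b + s i ∈ K := by
    intro j hj
    rw [hR, Finset.mem_filter] at hj
    obtain ⟨T, hT1, hT2⟩ := Finset.exists_subset_card_eq hj.2
    let e := T.orderEmbOfFin hT2
    have he : ∀ i, e i ∈ F j := fun i => hT1 (Finset.orderEmbOfFin_mem T hT2 i)
    have he0 : ∀ i, e 0 ≤ e i := fun i => e.monotone (Fin.zero_le i)
    have hew : ∀ i, e i / w = j := by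
      intro i
      have h1 := he i
      rw [hF, Finset.mem_filter] at h1
      exact h1.2
    have hrange : ∀ i, j * w ≤ e i ∧ e i < j * w + w := by
      intro i
      have h2 := Nat.div_add_mod (e i) w
      have h3 := Nat.mod_lt (e i) (show 0 < w by omega)
      rw [hew i] at h2
      have h4 : w * j = j * w := mul_comm _ _
      omega
    refine ⟨fun i => e i - e 0, e 0, fun i i' hii => ?_, fun i => ?_, by simp, hew 0, fun i => ?_⟩
    · have h1 : e i < e i' := e.strictMono hii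
      have h2 := he0 i
      simp only
      omega
    · have h1 := hrange i
      have h2 := hrange 0
      simp only
      omega
    · have h1 := he i
      rw [hF, Finset.mem_filter] at h1
      have h2 := he0 i
      simp only
      rw [Nat.add_sub_cancel' h2]
      exact h1.1
  have hchoice : ∃ (S : ℕ → Fin (d + 1) → ℕ) (b : ℕ → ℕ), ∀ j ∈ R, StrictMono (S j) ∧ (∀ i, S j i < w) ∧ S j 0 = 0 ∧ b j / w = j ∧
      ∀ i, b j + S j i ∈ K := by
    refine ⟨fun j => if h : j ∈ R then (hcase j h).choose else fun _ => 0,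
      fun j => if h : j ∈ R then (hcase j h).choose_spec.choose else 0, fun j hj => ?_⟩
    simp only [dif_pos hj]
    exact (hcase j hj).choose_spec.choose_spec
  obtain ⟨S, b, hSb⟩ := hchoice
  -- pigeonhole
  obtain ⟨T, hT⟩ : ∃ T : Finset (Fin (d + 1) → ℕ), T = Fintype.piFinset fun _ => range w := ⟨_, rfl⟩
  have hTcard : T.card = w ^ (d + 1) := by
    rw [hT, Fintype.card_piFinset_const, Finset.card_range]
  have hmaps : ∀ j ∈ R, S j ∈ T := by
    intro j hj
    rw [hT, Fintype.mem_piFinset]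
    exact fun i => Finset.mem_range.2 ((hSb j hj).2.1 i)
  have hTne : T.Nonempty := by
    rw [← Finset.card_pos, hTcard]
    exact pow_pos (by omega) _
  have hpig := Finset.exists_le_card_fiber_of_nsmul_le_card_of_maps_to (M := ℝ) (b := (R.card : ℝ) / (w : ℝ) ^ (d + 1)) hmaps hTne (by
    rw [hTcard, nsmul_eq_mul]
    push_cast
    rw [mul_div_cancel₀ _ (by positivity)])
  obtain ⟨s, _, hs⟩ := hpig
  obtain ⟨Q, hQ⟩ : ∃ Q : Finset ℕ, Q = R.filter fun j => S j = s := ⟨_, rfl⟩
  rw [← hQ] at hs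
  by_cases hQe : Q.Nonempty
  · obtain ⟨j0, hj0⟩ := hQe
    have hj0' := hj0
    rw [hQ, Finset.mem_filter] at hj0'
    have h0 := hSb j0 hj0'.1
    rw [hj0'.2] at h0
    refine ⟨s, h0.1, h0.2.1, h0.2.2.1, Q.image b, ?_, ?_, ?_⟩
    · intro x hx
      obtain ⟨j, hj, rfl⟩ := Finset.mem_image.1 hx
      rw [hQ, Finset.mem_filter] at hj
      have h1 := (hSb j hj.1).2.2.2.2 0
      rw [(hSb j hj.1).2.2.1, add_zero] at h1
      exact hKL h1
    · have hinj : Set.InjOn b Q := by
        intro j hj j' hj' hjj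
        rw [Finset.mem_coe, hQ, Finset.mem_filter] at hj hj'
        rw [← (hSb j hj.1).2.2.2.1, ← (hSb j' hj'.1).2.2.2.1, hjj]
      rw [Finset.card_image_of_injOn hinj]
      refine le_trans ?_ hs
      rw [div_le_div_iff₀ (by positivity) (by positivity)]
      rw [div_le_iff₀ (by positivity)] at hRcard
      have h1 : (w : ℝ) ^ (d + 2) = (w : ℝ) ^ (d + 1) * w := pow_succ _ _
      rw [h1]
      have h2 : (0 : ℝ) < (w : ℝ) ^ (d + 1) := by positivity
      nlinarith
    · intro x hx i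
      obtain ⟨j, hj, rfl⟩ := Finset.mem_image.1 hx
      rw [hQ, Finset.mem_filter] at hj
      rw [← hj.2]
      exact (hSb j hj.1).2.2.2.2 i
  · -- then R is empty and L = 0 or the bound is trivial
    rw [Finset.not_nonempty_iff_eq_empty] at hQe
    rw [hQe, Finset.card_empty, Nat.cast_zero] at hs
    have hR0 : (R.card : ℝ) ≤ 0 := by
      by_contra hcon
      push Not at hcon
      have : (0 : ℝ) < (R.card : ℝ) / (w : ℝ) ^ (d + 1) := by positivity
      linarith
    have hL0 : δ * L ≤ 0 := by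
      have h1 := hRcard.trans hR0
      rw [div_le_iff₀ (by positivity)] at h1
      linarith
    have hLd : d = 0 := by
      have : (4 : ℝ) * d ≤ 0 := hL.trans hL0
      have h2 : (d : ℝ) ≤ 0 := by linarith
      have h3 : (d : ℝ) = 0 := le_antisymm h2 hd0
      exact_mod_cast h3
    subst hLd
    refine ⟨fun _ => 0, ?_, fun _ => Nat.lt_of_lt_of_le Nat.zero_lt_one hw1, rfl, ∅, Finset.empty_subset _, ?_, ?_⟩
    · intro i i' hii
      have h1 : (i : ℕ) < i' := hii
      have h2 := i'.isLt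
      omega
    · rw [Finset.card_empty, Nat.cast_zero]
      exact div_nonpos_of_nonpos_of_nonneg hL0 (by positivity)
    · intro x hx
      simp at hx

/-- Lagrange interpolation with integral coefficients. -/
theorem lagr (d w : ℕ) (s : Fin (d + 1) → ℕ) (hs : StrictMono s) (hsw : ∀ i, s i < w) (hdw : d ≤ w) :
    ∃ D : ℤ, D ≠ 0 ∧ |(D : ℝ)| ≤ (w : ℝ) ^ (d * (d + 1)) ∧ ∀ y : ℕ, y ≤ d → ∃ c : Fin (d + 1) → ℤ,
      (∀ i, |(c i : ℝ)| ≤ (w : ℝ) ^ (d * (d + 1))) ∧ ∀ (p : ℝ[X]), p.natDegree ≤ d → ∀ x : ℝ,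
        D * p.eval (x + y) = ∑ i, c i * p.eval (x + s i) := by
  have hw1 : 1 ≤ w := by
    have := hsw 0
    omega
  have hwr : (1 : ℝ) ≤ w := by exact_mod_cast hw1
  obtain ⟨Di, hDi⟩ : ∃ Di : Fin (d + 1) → ℤ, ∀ i, Di i = ∏ j ∈ univ.erase i, ((s i : ℤ) - s j) := ⟨_, fun _ => rfl⟩
  have hcard : ∀ i : Fin (d + 1), (univ.erase i : Finset (Fin (d + 1))).card = d := by
    intro i
    rw [Finset.card_erase_of_mem (Finset.mem_univ _), Finset.card_univ, Fintype.card_fin, Nat.add_sub_cancel]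
  have hDi0 : ∀ i, Di i ≠ 0 := by
    intro i
    rw [hDi, Finset.prod_ne_zero_iff]
    intro j hj
    have hij : j ≠ i := Finset.ne_of_mem_erase hj
    intro h
    have h1 : s i = s j := by omega
    exact hij (hs.injective h1.symm)
  have hdist : ∀ (a b : ℕ), a ≤ w → b ≤ w → |((a : ℝ) - b)| ≤ w := by
    intro a b ha hb
    have h1 : (a : ℝ) ≤ w := by exact_mod_cast ha
    have h2 : (b : ℝ) ≤ w := by exact_mod_cast hb
    have h3 : (0 : ℝ) ≤ a := Nat.cast_nonneg _
    have h4 : (0 : ℝ) ≤ b := Nat.cast_nonneg _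
    rw [abs_le]
    constructor <;> linarith
  have hDib : ∀ i, |(Di i : ℝ)| ≤ (w : ℝ) ^ d := by
    intro i
    rw [hDi]
    push_cast
    rw [Finset.abs_prod]
    calc ∏ j ∈ univ.erase i, |((s i : ℝ) - s j)| ≤ ∏ _j ∈ univ.erase i, (w : ℝ) :=
          Finset.prod_le_prod (fun _ _ => abs_nonneg _) fun j _ => hdist _ _ (hsw i).le (hsw j).le
      _ = (w : ℝ) ^ d := by rw [Finset.prod_const, hcard]
  refine ⟨∏ i, Di i, Finset.prod_ne_zero_iff.2 fun i _ => hDi0 i, ?_, fun y hy => ?_⟩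
  · push_cast
    rw [Finset.abs_prod]
    calc ∏ i, |(Di i : ℝ)| ≤ ∏ _i : Fin (d + 1), (w : ℝ) ^ d := Finset.prod_le_prod (fun _ _ => abs_nonneg _) fun i _ => hDib i
      _ = (w : ℝ) ^ (d * (d + 1)) := by
        rw [Finset.prod_const, Finset.card_univ, Fintype.card_fin, ← pow_mul]
  · refine ⟨fun i => (∏ i' ∈ univ.erase i, Di i') * ∏ j ∈ univ.erase i, ((y : ℤ) - s j), fun i => ?_, fun p hp x => ?_⟩
    · push_cast
      rw [abs_mul, Finset.abs_prod, Finset.abs_prod]
      have h1 : ∏ i' ∈ univ.erase i, |(Di i' : ℝ)| ≤ (w : ℝ) ^ (d * d) := by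
        calc ∏ i' ∈ univ.erase i, |(Di i' : ℝ)| ≤ ∏ _i' ∈ univ.erase i, (w : ℝ) ^ d :=
              Finset.prod_le_prod (fun _ _ => abs_nonneg _) fun i' _ => hDib i'
          _ = (w : ℝ) ^ (d * d) := by rw [Finset.prod_const, hcard, ← pow_mul]
      have h2 : ∏ j ∈ univ.erase i, |((y : ℝ) - s j)| ≤ (w : ℝ) ^ d := by
        calc ∏ j ∈ univ.erase i, |((y : ℝ) - s j)| ≤ ∏ _j ∈ univ.erase i, (w : ℝ) :=
              Finset.prod_le_prod (fun _ _ => abs_nonneg _) fun j _ => hdist _ _ (hy.trans hdw) (hsw j).le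
          _ = (w : ℝ) ^ d := by rw [Finset.prod_const, hcard]
      calc _ ≤ (w : ℝ) ^ (d * d) * (w : ℝ) ^ d :=
            mul_le_mul h1 h2 (Finset.prod_nonneg fun _ _ => abs_nonneg _) (by positivity)
        _ = (w : ℝ) ^ (d * (d + 1)) := by
          rw [← pow_add]
          congr 1
    · -- Lagrange
      have hinj : Set.InjOn (fun i : Fin (d + 1) => x + (s i : ℝ)) (Finset.univ : Finset (Fin (d + 1))) := by
        intro i _ j _ hij
        simp only [add_right_inj, Nat.cast_inj] at hij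
        exact hs.injective hij
      have hdeg : p.degree < (Finset.univ : Finset (Fin (d + 1))).card := by
        rw [Finset.card_univ, Fintype.card_fin]
        refine lt_of_le_of_lt Polynomial.degree_le_natDegree ?_
        exact_mod_cast Nat.lt_succ_of_le hp
      have hint := Lagrange.eq_interpolate hinj hdeg
      have heval : p.eval (x + y) = ∑ i : Fin (d + 1), p.eval (x + s i) *
          (Lagrange.basis Finset.univ (fun i : Fin (d + 1) => x + (s i : ℝ)) i).eval (x + y) := by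
        conv_lhs => rw [hint]
        rw [Lagrange.interpolate_apply, Polynomial.eval_finsetSum]
        refine Finset.sum_congr rfl fun i _ => ?_
        rw [Polynomial.eval_mul, Polynomial.eval_C]
      rw [heval, Finset.mul_sum]
      refine Finset.sum_congr rfl fun i _ => ?_
      have hb : (Lagrange.basis Finset.univ (fun i : Fin (d + 1) => x + (s i : ℝ)) i).eval (x + y) =
          (∏ j ∈ univ.erase i, ((y : ℝ) - s j)) / (Di i : ℝ) := by
        rw [Lagrange.basis, Polynomial.eval_prod, hDi]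
        push_cast
        rw [← Finset.prod_div_distrib]
        refine Finset.prod_congr rfl fun j _ => ?_
        rw [Lagrange.basisDivisor, Polynomial.eval_mul, Polynomial.eval_C, Polynomial.eval_sub, Polynomial.eval_X,
          Polynomial.eval_C, mul_comm, ← div_eq_mul_inv]
        congr 1 <;> ring
      rw [hb]
      have hDi0r : (Di i : ℝ) ≠ 0 := by exact_mod_cast hDi0 i
      have hprod : (((∏ i, Di i : ℤ)) : ℝ) = (∏ i' ∈ univ.erase i, (Di i' : ℝ)) * Di i := by
        push_cast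
        rw [Finset.prod_erase_mul _ _ (Finset.mem_univ i)]
      rw [hprod]
      push_cast
      field_simp

/-- Leading coefficient of a polynomial bounded on `[0, L)`. -/
theorem lead_le (d L : ℕ) (hL : d + 1 ≤ L) (r : ℝ[X]) (hr : r.natDegree ≤ d) (E : ℝ) (hE : ∀ k < L, |r.eval (k : ℝ)| ≤ E) :
    |r.coeff d| ≤ ((d : ℝ) + 1) * (2 * ((d : ℝ) + 1)) ^ d * E / (L : ℝ) ^ d := by
  obtain ⟨t, ht⟩ : ∃ t : ℕ, t = L / (d + 1) := ⟨_, rfl⟩
  have ht1 : 1 ≤ t := by
    rw [ht]
    exact (Nat.le_div_iff_mul_le (by omega)).2 (by omega)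
  have htL : (d + 1) * t ≤ L := by
    rw [ht]
    exact Nat.mul_div_le _ _
  have htL2 : L ≤ (d + 1) * t + d := by
    have h3 := Nat.div_add_mod L (d + 1)
    have h4 := Nat.mod_lt L (show 0 < d + 1 by omega)
    rw [← ht] at h3
    omega
  have ht0 : (0 : ℝ) < t := by exact_mod_cast ht1
  have hE0 : 0 ≤ E := (abs_nonneg _).trans (hE 0 (by omega))
  have hinj : Set.InjOn (fun i : Fin (d + 1) => (((i : ℕ) * t : ℕ) : ℝ)) (Finset.univ : Finset (Fin (d + 1))) := by
    intro i _ j _ hij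
    simp only [Nat.cast_inj] at hij
    exact Fin.ext (Nat.eq_of_mul_eq_mul_right (by omega) hij)
  have hdeg : r.degree < (Finset.univ : Finset (Fin (d + 1))).card := by
    rw [Finset.card_univ, Fintype.card_fin]
    refine lt_of_le_of_lt Polynomial.degree_le_natDegree ?_
    exact_mod_cast Nat.lt_succ_of_le hr
  have hco := Lagrange.coeff_eq_sum hinj hdeg
  rw [Finset.card_univ, Fintype.card_fin, Nat.add_sub_cancel] at hco
  rw [hco]
  have hterm : ∀ i : Fin (d + 1), |r.eval (((i : ℕ) * t : ℕ) : ℝ) / ∏ j ∈ univ.erase i, ((((i : ℕ) * t : ℕ) : ℝ) - (((j : ℕ) * t : ℕ) : ℝ))| ≤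
      E / (t : ℝ) ^ d := by
    intro i
    rw [abs_div, Finset.abs_prod]
    have h1 : |r.eval (((i : ℕ) * t : ℕ) : ℝ)| ≤ E := by
      refine hE _ ?_
      have h2 : (i : ℕ) ≤ d := by omega
      have h3 : (i : ℕ) * t ≤ d * t := Nat.mul_le_mul_right t h2
      have h4 : (d + 1) * t = d * t + t := by ring
      omega
    have h2 : (t : ℝ) ^ d ≤ ∏ j ∈ univ.erase i, |(((i : ℕ) * t : ℕ) : ℝ) - (((j : ℕ) * t : ℕ) : ℝ)| := by
      have hcard : (univ.erase i : Finset (Fin (d + 1))).card = d := by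
        rw [Finset.card_erase_of_mem (Finset.mem_univ _), Finset.card_univ, Fintype.card_fin, Nat.add_sub_cancel]
      calc (t : ℝ) ^ d = ∏ _j ∈ univ.erase i, (t : ℝ) := by rw [Finset.prod_const, hcard]
        _ ≤ _ := Finset.prod_le_prod (fun _ _ => ht0.le) fun j hj => ?_
      have hij : i ≠ j := (Finset.ne_of_mem_erase hj).symm
      have h5 : ((((i : ℕ) * t : ℕ) : ℝ) - (((j : ℕ) * t : ℕ) : ℝ)) = (((i : ℕ) : ℝ) - ((j : ℕ) : ℝ)) * t := by
        push_cast
        ring
      rw [h5, abs_mul, abs_of_pos ht0]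
      have h6 : (1 : ℝ) ≤ |((i : ℕ) : ℝ) - ((j : ℕ) : ℝ)| := by
        have h7 : (i : ℕ) ≠ (j : ℕ) := fun h => hij (Fin.ext h)
        have h8 : (1 : ℤ) ≤ |((i : ℕ) : ℤ) - ((j : ℕ) : ℤ)| := by
          exact Int.one_le_abs (by omega)
        exact_mod_cast h8
      nlinarith
    exact div_le_div₀ hE0 h1 (by positivity) h2
  calc |∑ i : Fin (d + 1), r.eval (((i : ℕ) * t : ℕ) : ℝ) / ∏ j ∈ univ.erase i, ((((i : ℕ) * t : ℕ) : ℝ) - (((j : ℕ) * t : ℕ) : ℝ))|
      ≤ ∑ i : Fin (d + 1), |r.eval (((i : ℕ) * t : ℕ) : ℝ) / ∏ j ∈ univ.erase i, ((((i : ℕ) * t : ℕ) : ℝ) - (((j : ℕ) * t : ℕ) : ℝ))| :=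
        Finset.abs_sum_le_sum_abs _ _
    _ ≤ ∑ _i : Fin (d + 1), E / (t : ℝ) ^ d := Finset.sum_le_sum fun i _ => hterm i
    _ = ((d : ℝ) + 1) * (E / (t : ℝ) ^ d) := by
        rw [Finset.sum_const, Finset.card_univ, Fintype.card_fin, nsmul_eq_mul]
        push_cast
        ring
    _ ≤ ((d : ℝ) + 1) * (2 * ((d : ℝ) + 1)) ^ d * E / (L : ℝ) ^ d := by
        have hL0 : (0 : ℝ) < L := by
          have : 0 < L := by omega
          exact_mod_cast this
        rw [mul_assoc, mul_div_assoc]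
        refine mul_le_mul_of_nonneg_left ?_ (by positivity)
        rw [mul_comm _ E, mul_div_assoc, div_eq_mul_inv]
        refine mul_le_mul_of_nonneg_left ?_ hE0
        rw [← div_pow, ← inv_pow]
        refine pow_le_pow_left₀ (by positivity) ?_ d
        rw [inv_eq_one_div, div_le_div_iff₀ ht0 hL0, one_mul]
        have h1 : (L : ℝ) ≤ (d + 1) * t + d := by exact_mod_cast htL2
        have h2 : (1 : ℝ) ≤ t := by exact_mod_cast ht1
        nlinarith [(Nat.cast_nonneg d : (0 : ℝ) ≤ d)]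

end Pool.Agent.Lib.H9V
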