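import Pool.Agent.Lib.H9V.V5
import Pool.Agent.Lib.H88U.A16

/-!
# H9V (helper9), V7: `AV d (16 (d + 1)^3)` and module A
-/

open Finset

namespace Pool.Agent.Lib.H9V

open Pool.Agent.H16U

/-- Module V. -/
theorem AV_holds (d : ℕ) : AV d (16 * (d + 1) ^ 3) := by
  intro δ hδ hδ2 L hL c P ψ ε hP hε hεδ hK
  refine av_explicit d δ hδ hδ2 L hL c P ψ ε hP hε hεδ (hK.trans (le_of_eq ?_))
  congr!

/-- Module A. -/
theorem TIIu_holds : TIIu 64 := Pool.Agent.Lib.H88U.A16_TIIu AV_holds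

end Pool.Agent.Lib.H9V
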